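import Pool.Agent.K6.H31.XZ.Box
import Pool.Agent.Y971.KK.RTop

set_option autoImplicit false

/-!
# Few zeros of `Ξ_{-μ}` in flat regions `|Im z| ≤ β μ log T`
-/

namespace Pool.Agent.K6.H31.XZ

open Complex MeasureTheory Filter Topology Metric Pool.Agent.Helper242.KK Pool.Agent.Y971.KK

/-- few zeros in flat boxes, for every `μ > 0` -/
theorem few_box {μ : ℝ} (hμ : 0 < μ) {q : ℝ} (hq : 0 < q) (hq1 : q ≤ 1 / 40) :
    ∃ T₀ : ℝ, ∀ T : ℝ, T₀ ≤ T →
      zc (XiM μ) (Box T (2 * T) (20 * q * μ * Real.log T)) ≤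
        ENNReal.ofReal (110 * q * T * Real.log T) := by
  have hf := differentiable_XiM hμ.le
  obtain ⟨C, X, hC, hX, hD⟩ := Dser_window hμ
  obtain ⟨Cs, hCs, hstrip⟩ := XiM_strip hμ
  obtain ⟨C', hC', hJ⟩ := zc_real_centre hf hμ hstrip
  have h1 := exists_good_universal' hμ hC hX (fun x => Dser_zero_lower hμ.le x) hD
  obtain ⟨P, hPo, T₁, hst⟩ := stat_rough (μ := μ) (β := 1 / 2 - q) (ρ := 5 / 2 * q * μ)
    (ε := q ^ 2 / 10) hμ (by linarith) (by linarith) (by positivity) (by positivity)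
  have hP1 : (1 : ℝ) ≤ P := by exact_mod_cast hPo.pos
  obtain ⟨T₂, hsm⟩ := small_of_bad' (K₀ := Real.log P) hμ hq hq1 (Real.log_nonneg hP1) hC hX hD
  have ev1 : ∀ᶠ T : ℝ in atTop, 5 / 2 * q * μ * Real.log T ≤ T := by
    have hc0 : 0 < 5 / 2 * q * μ := by positivity
    have h := Real.isLittleO_log_id_atTop.bound (c := 1 / (5 / 2 * q * μ)) (by positivity)
    filter_upwards [h, eventually_ge_atTop 1] with T hT hT1
    have hl : 0 ≤ Real.log T := Real.log_nonneg hT1
    simp only [id] at hT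
    rw [Real.norm_eq_abs, Real.norm_eq_abs, abs_of_nonneg hl, abs_of_nonneg (by linarith)] at hT
    calc 5 / 2 * q * μ * Real.log T ≤ 5 / 2 * q * μ * (1 / (5 / 2 * q * μ) * T) :=
          mul_le_mul_of_nonneg_left hT hc0.le
      _ = T := by field_simp
  have ev := ev1.and ((eventually_ge_atTop T₁).and ((eventually_ge_atTop T₂).and
    ((eventually_ge_atTop (1 : ℝ)).and (eventually_ge_atTop (P : ℝ)))))
  obtain ⟨T₃, hT₃⟩ := eventually_atTop.1 ev
  refine count_box (f := XiM μ) hq hq1 hμ hC' hJ h1 ⟨T₃, fun T hT => ?_⟩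
  obtain ⟨e1, e2, e3, e4, e5⟩ := hT₃ T hT
  refine le_trans ?_ (hst T e2)
  have hT0 : 0 < T := by linarith
  have hfin : (volume {x : ℝ | x ∈ Set.Icc T (2 * T) ∧ ∀ r : ℝ, |r| ≤ 5 / 2 * q * μ * Real.log T →
        ‖Rs P μ ((1 / 2 - q) * Real.log T) (x + r)‖ ≤ (T ^ 2)⁻¹}) ≠ ⊤ := by
    refine ne_top_of_le_ne_top ?_ (measure_mono (fun x hx => hx.1) : _ ≤ volume (Set.Icc T (2 * T)))
    rw [Real.volume_Icc]
    exact ENNReal.ofReal_ne_top
  refine ENNReal.toReal_mono hfin (measure_mono ?_)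
  rintro x ⟨hx, hx2, hx3⟩
  refine ⟨hx, fun r hr => ?_⟩
  have hr' := abs_le.1 hr
  have hbound : ∀ δ : ℝ, 0 ≤ δ → δ ≤ Real.log P →
      ‖Dser μ ((1 / 2 - q) * Real.log T - δ) (x + r)‖ ≤ (T ^ 3)⁻¹ := by
    refine hsm T (x + r) e3 (by linarith) (by linarith [hx.2]) ?_
    intro y hy
    apply hx3
    have h2 : |y - x| ≤ |y - (x + r)| + |r| := by
      have : y - x = (y - (x + r)) + r := by ring
      rw [this]
      exact abs_add_le _ _
    have h3 : 5 * q * μ * Real.log T + 5 / 2 * q * μ * Real.log T = 15 / 2 * q * μ * Real.log T := by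
      ring
    linarith
  refine (norm_Rs_le hμ.le hPo hbound).trans ?_
  rw [← div_eq_mul_inv, div_le_iff₀ (by positivity), inv_mul_eq_div, le_div_iff₀ (by positivity)]
  calc (P : ℝ) * T ^ 2 ≤ T * T ^ 2 := mul_le_mul_of_nonneg_right e5 (by positivity)
    _ = T ^ 3 := by ring

/-- the trivial bound for the number of zeros in a small ball -/
lemma ball_small {μ : ℝ} (hμ : 0 ≤ μ) {ε : ℝ} (hε : 0 < ε) : ∀ᶠ T : ℝ in atTop,
    zc (XiM μ) (closedBall 0 (3 * Real.sqrt T)) ≤ ENNReal.ofReal (ε * T) := by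
  obtain ⟨C, hC, hup⟩ := XiM_upper hμ
  have h0 := XiM_zero_ne hμ
  set B : ℝ := |Real.log ‖XiM μ 0‖| with hB
  have hB0 : 0 ≤ B := abs_nonneg _
  -- in terms of `u = √T`
  have key : ∀ᶠ u : ℝ in atTop, 0 < u ∧ 9 * u * Real.log (2 + 9 * u) + C * (1 + 9 * u) + B ≤
      ε * u ^ 2 := by
    have hl := Real.isLittleO_log_id_atTop.bound (c := ε / 36) (by positivity)
    filter_upwards [hl, eventually_ge_atTop (11 : ℝ),
      eventually_ge_atTop ((20 * C + 2 * B) / ε)] with u h1 h2 h3
    simp only [id] at h1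
    have hu0 : 0 < u := by linarith
    have hlu : 0 ≤ Real.log u := Real.log_nonneg (by linarith)
    rw [Real.norm_eq_abs, Real.norm_eq_abs, abs_of_nonneg hlu, abs_of_nonneg hu0.le] at h1
    rw [div_le_iff₀ hε] at h3
    have h4 : Real.log (2 + 9 * u) ≤ 2 * Real.log u := by
      rw [show 2 * Real.log u = Real.log (u ^ 2) by rw [Real.log_pow]; norm_num]
      apply Real.log_le_log (by linarith)
      nlinarith
    refine ⟨hu0, ?_⟩
    have h5 : 9 * u * Real.log (2 + 9 * u) ≤ ε / 2 * u ^ 2 := by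
      calc 9 * u * Real.log (2 + 9 * u) ≤ 9 * u * (2 * (ε / 36 * u)) := by
            apply mul_le_mul_of_nonneg_left (h4.trans (by linarith)) (by positivity)
        _ = ε / 2 * u ^ 2 := by ring
    have h6 : C * (1 + 9 * u) + B ≤ (10 * C + B) * u := by nlinarith
    have h7 : (10 * C + B) * u ≤ ε / 2 * u ^ 2 := by nlinarith
    linarith
  have key2 := Real.tendsto_sqrt_atTop.eventually key
  filter_upwards [key2, eventually_gt_atTop 0] with T hT hT0
  obtain ⟨hu0, hu⟩ := hT
  set u := Real.sqrt T with hu'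
  have hu2 : u ^ 2 = T := Real.sq_sqrt hT0.le
  set M : ℝ := Real.exp ((9 * u) / 2 * Real.log (2 + 9 * u) + C * (1 + 9 * u)) with hM
  have hlog0 : 0 ≤ Real.log (2 + 9 * u) := Real.log_nonneg (by linarith)
  have hM1 : 1 ≤ M := Real.one_le_exp (by positivity)
  have hb : ∀ z ∈ sphere (0 : ℂ) (9 * u), ‖XiM μ z‖ ≤ M := by
    intro z hz
    rw [mem_sphere, dist_zero_right] at hz
    refine (hup z).trans (Real.exp_le_exp.2 ?_)
    have h1 : |z.im| ≤ 9 * u := (Complex.abs_im_le_norm z).trans hz.le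
    have h2 : 0 ≤ |z.im| := abs_nonneg _
    have h3 : Real.log (2 + |z.im|) ≤ Real.log (2 + 9 * u) :=
      Real.log_le_log (by linarith) (by linarith)
    have h4 : 0 ≤ Real.log (2 + |z.im|) := Real.log_nonneg (by linarith)
    have h5 : |z.im| / 2 * Real.log (2 + |z.im|) ≤ (9 * u) / 2 * Real.log (2 + 9 * u) :=
      mul_le_mul (by linarith) h3 h4 (by positivity)
    have h6 : C * (1 + |z.im|) ≤ C * (1 + 9 * u) := mul_le_mul_of_nonneg_left (by linarith) hC.le
    linarith
  refine (zc_ball_le (differentiable_XiM hμ) (by positivity) (by linarith : 3 * u < 9 * u) hM1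
    h0 hb).trans (ENNReal.ofReal_le_ofReal ?_)
  have e1 : 9 * u / (3 * u) = 3 := by field_simp; norm_num
  rw [e1]
  have hn0 : 0 < ‖XiM μ 0‖ := norm_pos_iff.2 h0
  rw [Real.log_div (Real.exp_pos _).ne' hn0.ne', Real.log_exp]
  have hl3 := count_dyadic_log3
  rw [div_le_iff₀ (by linarith)]
  have h8 : -Real.log ‖XiM μ 0‖ ≤ B := neg_le_abs _
  have h9 : 9 * u / 2 * Real.log (2 + 9 * u) ≤ 9 * u * Real.log (2 + 9 * u) := by
    apply mul_le_mul_of_nonneg_right _ hlog0
    linarith
  have h10 : ε * T ≤ ε * T * Real.log 3 := by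
    have : 0 < ε * T := by positivity
    nlinarith
  rw [hu2] at hu
  linarith

/-- summation over dyadic blocks -/
theorem box_dyadic {f : ℂ → ℂ} {h C T S : ℝ} (hC : 0 ≤ C) (hT : 0 ≤ T)
    (hb : ∀ t : ℝ, S ≤ t → t ≤ T → zc f (Box t (2 * t) h) ≤ ENNReal.ofReal (C * t)) (n : ℕ)
    (hn : S ≤ T / 2 ^ n) :
    zc f (Box 0 T h) ≤ zc f (Box 0 (T / 2 ^ n) h) + ENNReal.ofReal (C * (T - T / 2 ^ n)) := by
  induction n with
  | zero => simp
  | succ n ih =>
    have e1 : T / 2 ^ n = 2 * (T / 2 ^ (n + 1)) := by rw [pow_succ]; field_simp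
    have h0 : 0 ≤ T / 2 ^ (n + 1) := by positivity
    have hle : T / 2 ^ n ≤ T := div_le_self hT (one_le_pow₀ one_le_two)
    have ih' := ih (by linarith)
    have h1 : zc f (Box 0 (T / 2 ^ n) h) ≤ zc f (Box 0 (T / 2 ^ (n + 1)) h) +
        ENNReal.ofReal (C * (T / 2 ^ (n + 1))) := by
      refine (zc_mono f (T := Box 0 (T / 2 ^ (n + 1)) h ∪
        Box (T / 2 ^ (n + 1)) (2 * (T / 2 ^ (n + 1))) h) ?_).trans
        ((zc_union_le _ _ _).trans (by gcongr; exact hb _ hn (by linarith)))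
      rintro z ⟨h1, h2, h3⟩
      rcases le_total z.re (T / 2 ^ (n + 1)) with h4 | h4
      · exact Or.inl ⟨h1, h2, h4⟩
      · exact Or.inr ⟨h1, h4, by linarith⟩
    calc zc f (Box 0 T h) ≤ zc f (Box 0 (T / 2 ^ n) h) + ENNReal.ofReal (C * (T - T / 2 ^ n)) := ih'
      _ ≤ (zc f (Box 0 (T / 2 ^ (n + 1)) h) + ENNReal.ofReal (C * (T / 2 ^ (n + 1)))) +
          ENNReal.ofReal (C * (T - T / 2 ^ n)) := by gcongr
      _ = _ := by
          rw [add_assoc, ← ENNReal.ofReal_add (by positivity)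
            (mul_nonneg hC (by linarith))]
          congr 2
          rw [e1]; ring

/-- few zeros with small imaginary part -/
theorem few_flat {μ : ℝ} (hμ : 0 < μ) {q : ℝ} (hq : 0 < q) (hq1 : q ≤ 1 / 40) :
    ∀ᶠ T : ℝ in atTop, zc (XiM μ) {z | |z.re| ≤ T ∧ |z.im| ≤ 10 * q * μ * Real.log T} ≤
      ENNReal.ofReal (222 * q * T * Real.log T) := by
  obtain ⟨T₀, hT₀⟩ := few_box hμ hq hq1
  have ev1 : ∀ᶠ T : ℝ in atTop, 20 * q * μ * Real.log T ≤ T := by
    have hc0 : 0 < 20 * q * μ := by positivity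
    have h := Real.isLittleO_log_id_atTop.bound (c := 1 / (20 * q * μ)) (by positivity)
    filter_upwards [h, eventually_ge_atTop 1] with T hT hT1
    have hl : 0 ≤ Real.log T := Real.log_nonneg hT1
    simp only [id] at hT
    rw [Real.norm_eq_abs, Real.norm_eq_abs, abs_of_nonneg hl, abs_of_nonneg (by linarith)] at hT
    calc 20 * q * μ * Real.log T ≤ 20 * q * μ * (1 / (20 * q * μ) * T) :=
          mul_le_mul_of_nonneg_left hT hc0.le
      _ = T := by field_simp
  have evs := Real.tendsto_sqrt_atTop.eventually (ev1.and ((eventually_ge_atTop T₀).and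
    (eventually_ge_atTop (3 : ℝ))))
  filter_upwards [evs, ball_small hμ.le hq, eventually_ge_atTop 9] with T hT hball hT9
  obtain ⟨e1, e2, e3⟩ := hT
  set u := Real.sqrt T with hu
  have hT0 : 0 < T := by linarith
  have hu0 : 0 < u := by linarith
  have huu : u * u = T := Real.mul_self_sqrt hT0.le
  have hlu : Real.log T = 2 * Real.log u := by
    rw [← huu, Real.log_mul hu0.ne' hu0.ne']; ring
  have hlu0 : 0 < Real.log u := Real.log_pos (by linarith)
  have hlT : 1 ≤ Real.log T := by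
    rw [Real.le_log_iff_exp_le hT0]
    have := Real.exp_one_lt_d9
    linarith
  set h : ℝ := 10 * q * μ * Real.log T with hh
  have hhu : h ≤ u := by rw [hh, hlu]; linarith
  obtain ⟨n, hn1, hn2⟩ := exists_nat_pow_near (show (1 : ℝ) ≤ u by linarith) (one_lt_two)
  have hp : (0 : ℝ) < 2 ^ n := by positivity
  have hSn : u ≤ T / 2 ^ n := by
    rw [le_div_iff₀ hp, ← huu]
    exact mul_le_mul_of_nonneg_left hn1 hu0.le
  have hSn2 : T / 2 ^ n ≤ 2 * u := by
    rw [div_le_iff₀ hp, ← huu]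
    rw [pow_succ] at hn2
    nlinarith
  have hdy := box_dyadic (f := XiM μ) (h := h) (C := 110 * q * Real.log T) (T := T) (S := u)
    (by positivity) hT0.le ?_ n hSn
  · have hsm : zc (XiM μ) (Box 0 (T / 2 ^ n) h) ≤ ENNReal.ofReal (q * T) := by
      refine (zc_mono _ ?_).trans hball
      rintro z ⟨h1, h2, h3⟩
      rw [mem_closedBall, dist_zero_right]
      have : z = ((z.re : ℝ) : ℂ) + (z.im : ℂ) * I := (Complex.re_add_im z).symm
      rw [this]
      refine norm_le_of_box (a := 2 * u) (b := u) ?_ (h1.trans hhu) (by positivity) (by nlinarith)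
      rw [abs_of_nonneg h2]
      linarith
    have hbox : zc (XiM μ) (Box 0 T h) ≤ ENNReal.ofReal (111 * q * T * Real.log T) := by
      refine hdy.trans ?_
      calc _ ≤ ENNReal.ofReal (q * T) + ENNReal.ofReal (110 * q * Real.log T * (T - T / 2 ^ n)) := by
            gcongr
        _ ≤ ENNReal.ofReal (q * T) + ENNReal.ofReal (110 * q * Real.log T * T) := by
            gcongr
            have : 0 ≤ T / 2 ^ n := by positivity
            linarith
        _ = ENNReal.ofReal (q * T + 110 * q * Real.log T * T) := by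
            rw [← ENNReal.ofReal_add (by positivity) (by positivity)]
        _ ≤ _ := by
            apply ENNReal.ofReal_le_ofReal
            have : q * T * 1 ≤ q * T * Real.log T := by gcongr
            linarith
    calc zc (XiM μ) {z | |z.re| ≤ T ∧ |z.im| ≤ h} ≤
          zc (XiM μ) (Box 0 T h ∪ (fun z => -z) '' (Box 0 T h)) := by
          apply zc_mono
          rintro z ⟨h1, h2⟩
          rw [abs_le] at h1
          rcases le_total 0 z.re with h5 | h5
          · exact Or.inl ⟨h2, h5, h1.2⟩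
          · refine Or.inr ⟨-z, ⟨?_, ?_, ?_⟩, neg_neg z⟩
            · simpa using h2
            · simpa using h5
            · simp only [Complex.neg_re]; linarith
      _ ≤ zc (XiM μ) (Box 0 T h) + zc (XiM μ) ((fun z => -z) '' (Box 0 T h)) := zc_union_le _ _ _
      _ = 2 * zc (XiM μ) (Box 0 T h) := by rw [zc_neg (XiM_neg μ), two_mul]
      _ ≤ 2 * ENNReal.ofReal (111 * q * T * Real.log T) := by gcongr
      _ = _ := by
          rw [show (2 : ENNReal) = ENNReal.ofReal 2 by simp, ← ENNReal.ofReal_mul (by norm_num)]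
          congr 1; ring
  · intro t ht1 ht2
    have ht0 : 0 < t := by linarith
    have hlt : Real.log u ≤ Real.log t := Real.log_le_log hu0 ht1
    have hltT : Real.log t ≤ Real.log T := Real.log_le_log ht0 ht2
    refine (zc_mono _ ?_).trans ((hT₀ t (by linarith)).trans (ENNReal.ofReal_le_ofReal ?_))
    · rintro z ⟨h1, h2, h3⟩
      refine ⟨h1.trans ?_, h2, h3⟩
      rw [hh, hlu]
      have : 0 < q * μ := by positivity
      nlinarith
    · have : 110 * q * t * Real.log t ≤ 110 * q * t * Real.log T := by gcongr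
      linarith

/-- **Zeros near the real axis.** For every `β > 0` the proportion of the zeros of `Ξ_{-μ}` up to
height `T` that satisfy `|Im z| ≤ β μ log T` is at most `80000 β` for large `T`. -/
theorem flat_ratio {μ : ℝ} (hμ : 0 < μ) {β : ℝ} (hβ : 0 < β) :
    ∀ᶠ T : ℝ in atTop, zc (XiM μ) {z | |z.re| ≤ T ∧ |z.im| ≤ β * μ * Real.log T} ≤
      ENNReal.ofReal (80000 * β) * zc (XiM μ) {z | |z.re| ≤ T} := by
  rcases le_total β (1 / 4) with h | h
  · obtain ⟨T₀, hT₀⟩ := many_XiM hμ.le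
    filter_upwards [few_flat hμ (q := β / 10) (by positivity) (by linarith),
      eventually_ge_atTop T₀, eventually_ge_atTop 1] with T h1 h2 h3
    have hl : 0 ≤ Real.log T := Real.log_nonneg h3
    have e : 10 * (β / 10) * μ * Real.log T = β * μ * Real.log T := by ring
    rw [e] at h1
    refine h1.trans (le_trans ?_ (mul_le_mul_right (hT₀ T h2) _))
    rw [← ENNReal.ofReal_mul (by positivity)]
    apply ENNReal.ofReal_le_ofReal
    have : 0 ≤ β * T * Real.log T := by positivity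
    nlinarith
  · refine Eventually.of_forall fun T => ?_
    refine (zc_mono _ (fun z hz => hz.1 : {z : ℂ | |z.re| ≤ T ∧ |z.im| ≤ β * μ * Real.log T} ⊆
      {z | |z.re| ≤ T})).trans ?_
    refine le_mul_of_one_le_left zero_le ?_
    rw [← ENNReal.ofReal_one]
    apply ENNReal.ofReal_le_ofReal
    linarith

end Pool.Agent.K6.H31.XZ
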